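import Mathlib
import Pool.Agent.Hyper2.Base

namespace Pool.Agent.Results.MP_18c163_nt.Integrality

open PowerSeries

/-- The rising factorial `(x)_n = x (x + 1) ... (x + n - 1)`, with `(x)_0 = 1`. -/
def rising (x : ℚ) (n : ℕ) : ℚ := ∏ k ∈ Finset.range n, (x + k)

/-- The Gauss hypergeometric series `2F1(α, β; γ; z)` as a formal power series over `ℚ`. -/
noncomputable def gaussF (α β γ : ℚ) : ℚ⟦X⟧ :=
  PowerSeries.mk fun n => rising α n * rising β n / (rising γ n * (n.factorial : ℚ))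

/-- `N(t) = 2F1(3/4 + a, 3/4 + b; 3/2 + c; 4 t)`. -/
noncomputable def N (a b c : ℕ) : ℚ⟦X⟧ :=
  PowerSeries.rescale 4 (gaussF (3 / 4 + a) (3 / 4 + b) (3 / 2 + c))

/-- `D(t) = 2F1(1/4 + d, 1/4 + e; 1/2 + f; 4 t)`. -/
noncomputable def D (d e f : ℕ) : ℚ⟦X⟧ :=
  PowerSeries.rescale 4 (gaussF (1 / 4 + d) (1 / 4 + e) (1 / 2 + f))

/-- The quotient power series `Q(t) = N(t) / D(t)` (note that `D` has constant term `1`). -/
noncomputable def Q (a b c d e f : ℕ) : ℚ⟦X⟧ := N a b c * (D d e f)⁻¹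

theorem rising_succ (x : ℚ) (n : ℕ) : rising x (n + 1) = rising x n * (x + n) := by
  unfold rising; rw [Finset.prod_range_succ]

theorem rising_pos {x : ℚ} (hx : 0 < x) (n : ℕ) : 0 < rising x n := by
  unfold rising
  exact Finset.prod_pos fun k _ => by positivity

theorem coeff_eq (A B C : ℕ) (hA : 0 < A) (hB : 0 < B) (hC : 0 < C) (n : ℕ) :
    4 ^ n * (rising ((A : ℚ) / 4) n * rising ((B : ℚ) / 4) n /
      (rising ((C : ℚ) / 2) n * (n.factorial : ℚ))) = Hyper2.h A B C n := by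
  induction n with
  | zero => simp [rising, Hyper2.h_zero]
  | succ n ih =>
    rw [Hyper2.h_succ, ← ih, rising_succ, rising_succ, rising_succ, Nat.factorial_succ]
    have h1 : rising ((C : ℚ) / 2) n ≠ 0 := (rising_pos (by positivity) n).ne'
    have h2 : (n.factorial : ℚ) ≠ 0 := by exact_mod_cast Nat.factorial_ne_zero n
    have h3 : (n : ℚ) + 1 ≠ 0 := by positivity
    have h4 : (C : ℚ) + 2 * n ≠ 0 := by positivity
    have h5 : (C : ℚ) / 2 + n ≠ 0 := by positivity
    push_cast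
    rw [pow_succ]
    field_simp
    ring

theorem rescale_eq (A B C : ℕ) (hA : 0 < A) (hB : 0 < B) (hC : 0 < C) :
    PowerSeries.rescale 4 (gaussF ((A : ℚ) / 4) ((B : ℚ) / 4) ((C : ℚ) / 2)) =
      Hyper2.H A B C := by
  ext n
  rw [coeff_rescale]
  unfold gaussF Hyper2.H
  rw [coeff_mk, coeff_mk, coeff_eq A B C hA hB hC]

theorem N_eq (a b c : ℕ) : N a b c = Hyper2.H (3 + 4 * a) (3 + 4 * b) (3 + 2 * c) := by
  rw [← rescale_eq _ _ _ (by omega) (by omega) (by omega)]
  unfold N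
  congr 2 <;> (push_cast; ring)

theorem D_eq (d e f : ℕ) : D d e f = Hyper2.H (1 + 4 * d) (1 + 4 * e) (1 + 2 * f) := by
  rw [← rescale_eq _ _ _ (by omega) (by omega) (by omega)]
  unfold D
  congr 2 <;> (push_cast; ring)

/-- Sanity check: `D` has constant term `1`, and `Q` is the quotient, `D * Q = N`. -/
theorem D_mul_Q (a b c d e f : ℕ) :
    constantCoeff (D d e f) = 1 ∧ D d e f * Q a b c d e f = N a b c := by
  have h1 : constantCoeff (D d e f) = 1 := by rw [D_eq]; exact Hyper2.H_const _ _ _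
  refine ⟨h1, ?_⟩
  unfold Q
  have h2 : D d e f * (D d e f)⁻¹ = 1 :=
    PowerSeries.mul_inv_cancel _ (by rw [h1]; exact one_ne_zero)
  calc D d e f * (N a b c * (D d e f)⁻¹) = N a b c * (D d e f * (D d e f)⁻¹) := by ring
    _ = N a b c := by rw [h2, mul_one]

/-- Every coefficient of `N(t) / D(t)` is a rational number with odd denominator. -/
theorem result (a b c d e f n : ℕ) : Odd (coeff n (Q a b c d e f)).den := by
  unfold Q
  rw [N_eq, D_eq]
  exact Hyper2.main a b c d e f n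

end Pool.Agent.Results.MP_18c163_nt.Integrality
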